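import Pool.Agent.StripTouch.Means

set_option autoImplicit false

namespace Pool.Agent.StripTouch

open Set Filter Topology Metric Pool.Agent.MP7da5c3

/-! Arbitrary directions. -/

variable {h g : ℂ → ℂ}

/-- the open strip `a < Re (ν w) < b` lies in `Ω` -/
def Gap (Ω : Set ℂ) (ν : ℂ) (a b : ℝ) : Prop :=
  a < b ∧ ∀ w : ℂ, a < (ν * w).re → (ν * w).re < b → w ∈ Ω

/-- the line `Re (ν w) = a` carries a point outside `Ω` lying between two points of `Ω` -/
def Edge (Ω : Set ℂ) (ν : ℂ) (a : ℝ) : Prop :=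
  ∃ P w1 w2 : ℂ, P ∉ Ω ∧ w1 ∈ Ω ∧ w2 ∈ Ω ∧ (ν * P).re = a ∧ (ν * w1).re = a ∧ (ν * w2).re = a ∧
    (ν * w1).im < (ν * P).im ∧ (ν * P).im < (ν * w2).im

theorem Dat.rot (D : Dat h g) {ν : ℂ} (hν : ν ≠ 0) :
    Dat (fun z => ν * h z) (fun z => (starRingEnd ℂ) ν * g z) := by
  refine ⟨D.hh.const_mul ν, D.hg.const_mul _, ?_, ?_⟩
  · intro z hz w hw he
    simp only [map_mul, Complex.conj_conj] at he
    apply D.hinj hz hw
    apply mul_left_cancel₀ hν
    show ν * (h z + (starRingEnd ℂ) (g z)) = ν * (h w + (starRingEnd ℂ) (g w))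
    rw [mul_add, mul_add]
    exact he
  · intro z hz
    rw [deriv_const_mul_field, deriv_const_mul_field, norm_mul, norm_mul, RCLike.norm_conj]
    exact mul_lt_mul_of_pos_left (D.hJ z hz) (norm_pos_iff.mpr hν)

theorem fm_rot (ν z : ℂ) :
    fm (fun z => ν * h z) (fun z => (starRingEnd ℂ) ν * g z) z = ν * fm h g z := by
  simp only [fm, map_mul, Complex.conj_conj]
  ring

theorem mem_Om_rot {ν : ℂ} (hν : ν ≠ 0) (w : ℂ) :
    ν * w ∈ Om (fun z => ν * h z) (fun z => (starRingEnd ℂ) ν * g z) ↔ w ∈ Om h g := by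
  constructor
  · rintro ⟨z, hz, he⟩
    rw [fm_rot] at he
    exact ⟨z, hz, mul_left_cancel₀ hν he⟩
  · rintro ⟨z, hz, rfl⟩
    exact ⟨z, hz, fm_rot ν z⟩

theorem touchL_of {ν : ℂ} (hν : ν ≠ 0) {a b : ℝ} (G : Gap (Om h g) ν a b)
    (E : Edge (Om h g) ν a) :
    ∃ y0 : ℝ, TouchL (Om (fun z => ν * h z) (fun z => (starRingEnd ℂ) ν * g z)) a b y0 := by
  obtain ⟨P, w1, w2, hP, h1, h2, eP, e1, e2, l1, l2⟩ := E
  have key : ∀ w : ℂ, (ν * w).re = a → (a : ℂ) + ((ν * w).im : ℂ) * Complex.I = ν * w := by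
    intro w hw
    apply Complex.ext
    · rw [line_re, hw]
    · rw [line_im]
  refine ⟨(ν * P).im, G.1, ?_, ?_, ⟨(ν * w1).im, l1, ?_⟩, ⟨(ν * w2).im, l2, ?_⟩⟩
  · intro w hw1 hw2
    have e3 : ν * (ν⁻¹ * w) = w := by rw [← mul_assoc, mul_inv_cancel₀ hν, one_mul]
    rw [← e3, mem_Om_rot hν]
    apply G.2
    · rw [e3]; exact hw1
    · rw [e3]; exact hw2
  · rw [key P eP, mem_Om_rot hν]
    exact hP
  · rw [key w1 e1, mem_Om_rot hν]
    exact h1
  · rw [key w2 e2, mem_Om_rot hν]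
    exact h2

/-- (A) -/
theorem one_dir (D : Dat h g) {ν : ℂ} (hν : ν ≠ 0) {a b : ℝ} (G : Gap (Om h g) ν a b)
    (E : Edge (Om h g) ν a) {p : ℝ} (hp : 0 < p) (hp1 : p < 1 / 3) :
    MemH p (fun z => ν * h z + (starRingEnd ℂ) ν * g z) := by
  obtain ⟨y0, T⟩ := touchL_of hν G E
  exact one_touch (D.rot hν) T hp hp1

theorem two_edges (D : Dat h g) {ν : ℂ} (hν : ν ≠ 0) {a b : ℝ} (G : Gap (Om h g) ν a b)
    (E : Edge (Om h g) ν a) (E' : Edge (Om h g) (-ν) (-b)) {p : ℝ} (hp : 0 < p)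
    (hp1 : p < 1 / 2) :
    MemH p (fun z => ν * h z + (starRingEnd ℂ) ν * g z) := by
  obtain ⟨y0, T⟩ := touchL_of hν G E
  have G' : Gap (Om h g) (-ν) (-b) (-a) := by
    refine ⟨neg_lt_neg G.1, fun w h1 h2 => ?_⟩
    rw [neg_mul, Complex.neg_re] at h1 h2
    exact G.2 w (by linarith) (by linarith)
  have hν' : -ν ≠ 0 := neg_ne_zero.mpr hν
  obtain ⟨y1, T'⟩ := touchL_of hν' G' E'
  have D' := D.rot hν'
  have e1 : (fun z => -ν * h z) = (fun z => -(ν * h z)) := by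
    funext z; ring
  have e2 : (fun z => (starRingEnd ℂ) (-ν) * g z) = (fun z => -((starRingEnd ℂ) ν * g z)) := by
    funext z; rw [map_neg]; ring
  rw [e1, e2] at T' D'
  exact two_touch (D.rot hν) T D' T' hp hp1

theorem transfer_dir (D : Dat h g) {ν : ℂ} (hν : ν ≠ 0) {p q : ℝ} (hp : 0 < p) (hp1 : p < 1)
    (hq : p / (1 - p) < q) (hm : MemH q (fun z => ν * h z + (starRingEnd ℂ) ν * g z)) :
    MemH p h ∧ MemH p g := by
  obtain ⟨η, hη, hη2⟩ := exists_eta hν
  have hq0 : 0 < q := lt_trans (div_pos hp (by linarith)) hq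
  apply transfer D.hh D.hg D.hinj D.hJ hp hp1 hq hη
  apply memH_const_mul hq0 hν
  simp only [(hη2 _ _).1]
  exact hm

/-- (B) -/
theorem two_dirs (D : Dat h g) {ν μ : ℂ} (hne : (ν * (starRingEnd ℂ) μ).im ≠ 0) {p : ℝ}
    (hp : 0 < p) (hp1 : p ≤ 1)
    (m1 : MemH p (fun z => ν * h z + (starRingEnd ℂ) ν * g z))
    (m2 : MemH p (fun z => μ * h z + (starRingEnd ℂ) μ * g z)) :
    MemH p h ∧ MemH p g := by
  set d : ℂ := ν * (starRingEnd ℂ) μ - (starRingEnd ℂ) ν * μ with hd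
  have hd0 : d ≠ 0 := by
    intro h0
    apply hne
    have h1 := congrArg Complex.im h0
    rw [hd] at h1
    simp only [Complex.sub_im, Complex.mul_im, Complex.conj_re, Complex.conj_im,
      Complex.zero_im] at h1
    simp only [Complex.mul_im, Complex.conj_re, Complex.conj_im]
    linarith
  have c1 : ∀ κ : ℂ, ContinuousOn (fun z => κ * h z + (starRingEnd ℂ) κ * g z) (ball 0 1) :=
    fun κ => (continuousOn_const.mul D.hh.continuousOn).add
      (continuousOn_const.mul D.hg.continuousOn)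
  constructor
  · have key := memH_add (continuousOn_const.mul (c1 ν)) (continuousOn_const.mul (c1 μ)) hp hp1
      (memH_smul ((starRingEnd ℂ) μ / d) m1) (memH_smul (-(starRingEnd ℂ) ν / d) m2)
    have e1 : h = fun z => (starRingEnd ℂ) μ / d * (ν * h z + (starRingEnd ℂ) ν * g z)
        + -(starRingEnd ℂ) ν / d * (μ * h z + (starRingEnd ℂ) μ * g z) := by
      funext z
      field_simp
      rw [hd]
      ring
    rw [e1]
    exact key
  · have key := memH_add (continuousOn_const.mul (c1 ν)) (continuousOn_const.mul (c1 μ)) hp hp1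
      (memH_smul (-μ / d) m1) (memH_smul (ν / d) m2)
    have e1 : g = fun z => -μ / d * (ν * h z + (starRingEnd ℂ) ν * g z)
        + ν / d * (μ * h z + (starRingEnd ℂ) μ * g z) := by
      funext z
      field_simp
      rw [hd]
      ring
    rw [e1]
    exact key

end Pool.Agent.StripTouch
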