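import Pool.Agent.StripTouch.Sector

set_option autoImplicit false

namespace Pool.Agent.StripTouch

open Set Filter Topology Metric Pool.Agent.MP7da5c3

variable {h g : ℂ → ℂ}

/-- opposite sectors in arbitrary position -/
theorem sectors (D : Dat h g) {ν w1 w2 : ℂ} (hν : ν ≠ 0) {ε : ℝ} (hε : 0 < ε)
    (hne : (Om h g)ᶜ.Nonempty) (h12 : (ν * w1).re < (ν * w2).re)
    (hs : ∀ w, w ∉ Om h g → (ν * (w - w1)).re ≤ -ε * ‖w - w1‖ ∨
      ε * ‖w - w2‖ ≤ (ν * (w - w2)).re)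
    {p : ℝ} (hp : 0 < p) (hp1 : p < 1 / 3 ∨ p < 1 / 2 ∧
      (∃ w, w ∉ Om h g ∧ (ν * (w - w1)).re ≤ -ε * ‖w - w1‖) ∧
      (∃ w, w ∉ Om h g ∧ ε * ‖w - w2‖ ≤ (ν * (w - w2)).re)) : MemH p h ∧ MemH p g := by
  have hν0 : 0 < ‖ν‖ := norm_pos_iff.mpr hν
  have e1 : ∀ x : ℝ, -(ε / ‖ν‖) * (‖ν‖ * x) = -ε * x := by
    intro x
    field_simp
  have e2 : ∀ x : ℝ, ε / ‖ν‖ * (‖ν‖ * x) = ε * x := by
    intro x
    field_simp
  have hs' : ∀ w ∈ (Om (fun z => ν * h z) (fun z => (starRingEnd ℂ) ν * g z))ᶜ,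
      (w - ν * w1).re ≤ -(ε / ‖ν‖) * ‖w - ν * w1‖ ∨
      ε / ‖ν‖ * ‖w - ν * w2‖ ≤ (w - ν * w2).re := by
    intro w' hw'
    obtain ⟨w, rfl⟩ : ∃ w, w' = ν * w :=
      ⟨ν⁻¹ * w', by rw [← mul_assoc, mul_inv_cancel₀ hν, one_mul]⟩
    rw [mem_compl_iff, mem_Om_rot hν] at hw'
    rw [← mul_sub, ← mul_sub, norm_mul, norm_mul, e1, e2]
    exact hs w hw'
  have key : MemH p (fun z => ν * h z) ∧ MemH p (fun z => (starRingEnd ℂ) ν * g z) := by
    rcases hp1 with hp1 | ⟨hp1, ⟨v1, hv1, hv1'⟩, ⟨v2, hv2, hv2'⟩⟩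
    · apply sector_both (D.rot hν) (w1 := ν * w1) (w2 := ν * w2) (ε := ε / ‖ν‖)
        (by positivity) _ h12 hs' hp hp1
      obtain ⟨w, hw⟩ := hne
      refine ⟨ν * w, ?_⟩
      rw [mem_compl_iff, mem_Om_rot hν]
      exact hw
    · apply sector_two (D.rot hν) (w1 := ν * w1) (w2 := ν * w2) (ε := ε / ‖ν‖)
        (by positivity) h12 hs' _ _ hp hp1
      · refine ⟨ν * v1, ?_, ?_⟩
        · rw [mem_compl_iff, mem_Om_rot hν]
          exact hv1
        · rw [← mul_sub, norm_mul, e1]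
          exact hv1'
      · refine ⟨ν * v2, ?_, ?_⟩
        · rw [mem_compl_iff, mem_Om_rot hν]
          exact hv2
        · rw [← mul_sub, norm_mul, e2]
          exact hv2'
  refine ⟨memH_const_mul hp hν key.1, memH_const_mul hp ?_ key.2⟩
  intro h0
  apply hν
  rw [← Complex.conj_conj ν, h0, map_zero]

/-- the right edge seen from the opposite direction -/
theorem edge_neg {Ω : Set ℂ} {ν : ℂ} {b : ℝ} (E' : Edge Ω ν b) : Edge Ω (-ν) (-b) := by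
  obtain ⟨P, v1, v2, hP, hv1, hv2, e1, e2, e3, l1, l2⟩ := E'
  refine ⟨P, v2, v1, hP, hv2, hv1, ?_, ?_, ?_, ?_, ?_⟩
  · rw [neg_mul, Complex.neg_re, e1]
  · rw [neg_mul, Complex.neg_re, e3]
  · rw [neg_mul, Complex.neg_re, e2]
  · rw [neg_mul, neg_mul, Complex.neg_im, Complex.neg_im]; linarith
  · rw [neg_mul, neg_mul, Complex.neg_im, Complex.neg_im]; linarith

/-- two edges of one strip -/
theorem two_edges' (D : Dat h g) {ν : ℂ} (hν : ν ≠ 0) {a b : ℝ} (G : Gap (Om h g) ν a b)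
    (E : Edge (Om h g) ν a) (E' : Edge (Om h g) ν b) {p : ℝ} (hp : 0 < p)
    (hp1 : p < 1 / 2) :
    MemH p (fun z => ν * h z + (starRingEnd ℂ) ν * g z) :=
  two_edges D hν G E (edge_neg E') hp hp1

/-- two edges of one strip -/
theorem strip_two_edges (D : Dat h g) {ν : ℂ} (hν : ν ≠ 0) {a b : ℝ} (G : Gap (Om h g) ν a b)
    (E : Edge (Om h g) ν a) (E' : Edge (Om h g) ν b) {p : ℝ} (hp : 0 < p)
    (hp1 : p < 1 / 3) : MemH p h ∧ MemH p g := by
  have h1 : p / (1 - p) < 1 / 2 := by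
    rw [div_lt_div_iff₀ (by linarith) (by norm_num)]
    linarith
  obtain ⟨q, hq1, hq2⟩ := exists_between h1
  have hq0 : 0 < q := lt_trans (div_pos hp (by linarith)) hq1
  exact transfer_dir D hν hp (by linarith) hq1 (two_edges' D hν G E E' hq0 hq2)

/-- one edge: both parts, with the smaller exponent -/
theorem strip_one_edge (D : Dat h g) {ν : ℂ} (hν : ν ≠ 0) {a b : ℝ} (G : Gap (Om h g) ν a b)
    (E : Edge (Om h g) ν a) {p : ℝ} (hp : 0 < p) (hp1 : p < 1 / 4) :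
    MemH p h ∧ MemH p g := by
  have h1 : p / (1 - p) < 1 / 3 := by
    rw [div_lt_div_iff₀ (by linarith) (by norm_num)]
    linarith
  obtain ⟨q, hq1, hq2⟩ := exists_between h1
  have hq0 : 0 < q := lt_trans (div_pos hp (by linarith)) hq1
  exact transfer_dir D hν hp (by linarith) hq1 (one_dir D hν G E hq0 hq2)

end Pool.Agent.StripTouch
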