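import Pool.Agent.StripTouch.Wind

set_option autoImplicit false

namespace Pool.Agent.StripTouch

open Set Filter Topology Metric Pool.Agent.MP7da5c3

/-! Bounds for the integral means. -/

variable {h g : ℂ → ℂ}

/-- a bound by the real part of an analytic function -/
theorem memH_of_re {G E : ℂ → ℂ} (hG : ContinuousOn G (ball 0 1))
    (hE : DifferentiableOn ℂ E (ball 0 1)) {p A B : ℝ} (hp : 0 < p)
    (hle : ∀ z ∈ ball (0 : ℂ) 1, ‖G z‖ ^ p ≤ A * (E z).re + B) : MemH p G := by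
  refine ⟨A * (2 * Real.pi * (E 0).re) + 2 * Real.pi * B, fun r hr hr1 => ?_⟩
  have c1 : ContinuousOn (fun z => ‖G z‖ ^ p) (ball (0 : ℂ) 1) :=
    hG.norm.rpow_const fun _ _ => Or.inr hp.le
  have c2 : ContinuousOn (fun z => A * (E z).re + B) (ball (0 : ℂ) 1) :=
    ((Complex.continuous_re.comp_continuousOn hE.continuousOn).const_smul A).add
      continuousOn_const
  have i1 := (continuous_circle c1 hr hr1).intervalIntegrable (μ := MeasureTheory.volume) 0
    (2 * Real.pi)
  have i2 := (continuous_circle c2 hr hr1).intervalIntegrable (μ := MeasureTheory.volume) 0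
    (2 * Real.pi)
  have h1 : ∫ θ in (0 : ℝ)..(2 * Real.pi), ‖G ((r : ℂ) * Complex.exp ((θ : ℂ) * Complex.I))‖ ^ p
      ≤ ∫ θ in (0 : ℝ)..(2 * Real.pi),
        (A * (E ((r : ℂ) * Complex.exp ((θ : ℂ) * Complex.I))).re + B) := by
    apply intervalIntegral.integral_mono_on (by positivity) i1 i2
    intro θ _
    exact hle _ (circle_mem hr hr1 θ)
  apply h1.trans
  have c3 : ContinuousOn (fun z => A * (E z).re) (ball (0 : ℂ) 1) :=
    (Complex.continuous_re.comp_continuousOn hE.continuousOn).const_smul A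
  have i3 := (continuous_circle c3 hr hr1).intervalIntegrable (μ := MeasureTheory.volume) 0
    (2 * Real.pi)
  rw [intervalIntegral.integral_add i3 (intervalIntegrable_const (c := B)),
    intervalIntegral.integral_const_mul, mean_re hE hr hr1]
  simp [mul_comm]

/-- real part of the exponential of a multiple -/
theorem exp_mul_re (p : ℝ) (l : ℂ) :
    (Complex.exp ((p : ℂ) * l)).re = ‖Complex.exp l‖ ^ p * Real.cos (p * l.im) := by
  rw [Complex.exp_re, Complex.norm_exp, ← Real.exp_mul]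
  simp [mul_comm]

theorem memH_sub_const {G : ℂ → ℂ} (hG : ContinuousOn G (ball 0 1)) (c : ℂ) {p : ℝ}
    (hp : 0 < p) (hp1 : p ≤ 1) (hm : MemH p (fun z => G z - c)) : MemH p G := by
  obtain ⟨M, hM⟩ := hm
  refine ⟨M + 2 * Real.pi * ‖c‖ ^ p, fun r hr hr1 => ?_⟩
  have c1 : ContinuousOn (fun z => ‖G z‖ ^ p) (ball (0 : ℂ) 1) :=
    hG.norm.rpow_const fun _ _ => Or.inr hp.le
  have c2 : ContinuousOn (fun z => ‖G z - c‖ ^ p) (ball (0 : ℂ) 1) :=
    (hG.sub continuousOn_const).norm.rpow_const fun _ _ => Or.inr hp.le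
  have i1 := (continuous_circle c1 hr hr1).intervalIntegrable (μ := MeasureTheory.volume) 0
    (2 * Real.pi)
  have i2 := (continuous_circle c2 hr hr1).intervalIntegrable (μ := MeasureTheory.volume) 0
    (2 * Real.pi)
  have h1 : ∫ θ in (0 : ℝ)..(2 * Real.pi), ‖G ((r : ℂ) * Complex.exp ((θ : ℂ) * Complex.I))‖ ^ p
      ≤ ∫ θ in (0 : ℝ)..(2 * Real.pi),
        (‖G ((r : ℂ) * Complex.exp ((θ : ℂ) * Complex.I)) - c‖ ^ p + ‖c‖ ^ p) := by
    apply intervalIntegral.integral_mono_on (by positivity) i1 (i2.add intervalIntegrable_const)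
    intro θ _
    set x := G ((r : ℂ) * Complex.exp ((θ : ℂ) * Complex.I))
    have h2 : ‖x‖ ≤ ‖x - c‖ + ‖c‖ := by
      have := norm_add_le (x - c) c
      rwa [sub_add_cancel] at this
    calc ‖x‖ ^ p ≤ (‖x - c‖ + ‖c‖) ^ p := Real.rpow_le_rpow (norm_nonneg _) h2 hp.le
      _ ≤ ‖x - c‖ ^ p + ‖c‖ ^ p :=
        Real.rpow_add_le_add_rpow (norm_nonneg _) (norm_nonneg _) hp.le hp1
  apply h1.trans
  rw [intervalIntegral.integral_add i2 intervalIntegrable_const]
  have h3 := hM r hr hr1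
  simp only [intervalIntegral.integral_const, smul_eq_mul]
  linarith

theorem memH_add {F G : ℂ → ℂ} (hF : ContinuousOn F (ball 0 1)) (hG : ContinuousOn G (ball 0 1))
    {p : ℝ} (hp : 0 < p) (hp1 : p ≤ 1) (mF : MemH p F) (mG : MemH p G) :
    MemH p (fun z => F z + G z) := by
  obtain ⟨M, hM⟩ := mF
  obtain ⟨N, hN⟩ := mG
  refine ⟨M + N, fun r hr hr1 => ?_⟩
  have c0 : ContinuousOn (fun z => ‖F z + G z‖ ^ p) (ball (0 : ℂ) 1) :=
    (hF.add hG).norm.rpow_const fun _ _ => Or.inr hp.le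
  have c1 : ContinuousOn (fun z => ‖F z‖ ^ p) (ball (0 : ℂ) 1) :=
    hF.norm.rpow_const fun _ _ => Or.inr hp.le
  have c2 : ContinuousOn (fun z => ‖G z‖ ^ p) (ball (0 : ℂ) 1) :=
    hG.norm.rpow_const fun _ _ => Or.inr hp.le
  have i0 := (continuous_circle c0 hr hr1).intervalIntegrable (μ := MeasureTheory.volume) 0
    (2 * Real.pi)
  have i1 := (continuous_circle c1 hr hr1).intervalIntegrable (μ := MeasureTheory.volume) 0
    (2 * Real.pi)
  have i2 := (continuous_circle c2 hr hr1).intervalIntegrable (μ := MeasureTheory.volume) 0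
    (2 * Real.pi)
  have h1 : ∫ θ in (0 : ℝ)..(2 * Real.pi),
      ‖F ((r : ℂ) * Complex.exp ((θ : ℂ) * Complex.I))
        + G ((r : ℂ) * Complex.exp ((θ : ℂ) * Complex.I))‖ ^ p
      ≤ ∫ θ in (0 : ℝ)..(2 * Real.pi),
        (‖F ((r : ℂ) * Complex.exp ((θ : ℂ) * Complex.I))‖ ^ p
        + ‖G ((r : ℂ) * Complex.exp ((θ : ℂ) * Complex.I))‖ ^ p) := by
    apply intervalIntegral.integral_mono_on (by positivity) i0 (i1.add i2)
    intro θ _
    exact (Real.rpow_le_rpow (norm_nonneg _) (norm_add_le _ _) hp.le).trans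
      (Real.rpow_add_le_add_rpow (norm_nonneg _) (norm_nonneg _) hp.le hp1)
  apply h1.trans
  rw [intervalIntegral.integral_add i1 i2]
  linarith [hM r hr hr1, hN r hr hr1]

theorem memH_smul {F : ℂ → ℂ} {p : ℝ} (c : ℂ) (mF : MemH p F) :
    MemH p (fun z => c * F z) := by
  obtain ⟨M, hM⟩ := mF
  refine ⟨‖c‖ ^ p * M, fun r hr hr1 => ?_⟩
  have h1 : ∀ z : ℂ, ‖c * F z‖ ^ p = ‖c‖ ^ p * ‖F z‖ ^ p := by
    intro z
    rw [norm_mul, Real.mul_rpow (norm_nonneg _) (norm_nonneg _)]
  simp only [h1]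
  rw [intervalIntegral.integral_const_mul]
  exact mul_le_mul_of_nonneg_left (hM r hr hr1) (by positivity)

/-- one touching strip: the shear lies in `H^p` for all `p < 1/3` -/
theorem one_touch (D : Dat h g) {a b y0 : ℝ} (T : TouchL (Om h g) a b y0) {p : ℝ} (hp : 0 < p)
    (hp1 : p < 1 / 3) : MemH p (Uf h g) := by
  obtain ⟨q0, l, hl, H⟩ := T.exists_log D
  have hpi := Real.pi_pos
  set c : ℂ := (a : ℂ) + q0 * Complex.I with hc
  apply memH_sub_const D.hU.continuousOn c hp (by linarith)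
  set κ : ℝ := Real.cos (p * (3 * Real.pi / 2)) with hκ
  have hκ0 : 0 < κ := by
    apply Real.cos_pos_of_mem_Ioo
    constructor
    · have : 0 < p * (3 * Real.pi / 2) := by positivity
      linarith
    · nlinarith
  apply memH_of_re (G := fun z => Uf h g z - c) (E := fun z => Complex.exp ((p : ℂ) * l z))
    (A := κ⁻¹) (B := 0) (D.hU.continuousOn.sub continuousOn_const)
    ((hl.const_mul (p : ℂ)).cexp) hp
  intro z hz
  obtain ⟨h1, h2, _⟩ := H z hz
  rw [exp_mul_re, h1, add_zero, ← mul_assoc, mul_comm κ⁻¹, mul_assoc]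
  have h3 : κ ≤ Real.cos (p * (l z).im) := by
    rw [← Real.cos_abs (p * (l z).im), abs_mul, abs_of_pos hp]
    apply Real.cos_le_cos_of_nonneg_of_le_pi (by positivity) (by nlinarith)
    exact mul_le_mul_of_nonneg_left h2.le hp.le
  have h4 : 1 ≤ κ⁻¹ * Real.cos (p * (l z).im) := by
    rw [inv_mul_eq_div, le_div_iff₀ hκ0, one_mul]
    exact h3
  exact le_mul_of_one_le_right (by positivity) h4

/-- a strip touched on both sides: the shear lies in `H^p` for all `p < 1/2` -/
theorem two_touch (D : Dat h g) {a b y0 y1 : ℝ} (T : TouchL (Om h g) a b y0)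
    (D' : Dat (fun z => -h z) (fun z => -g z))
    (T' : TouchL (Om (fun z => -h z) (fun z => -g z)) (-b) (-a) y1)
    {p : ℝ} (hp : 0 < p) (hp1 : p < 1 / 2) : MemH p (Uf h g) := by
  obtain ⟨q0, l, hl, H⟩ := T.exists_log D
  obtain ⟨q1, m, hm, H'⟩ := T'.exists_log D'
  have hpi := Real.pi_pos
  set c : ℂ := (a : ℂ) + q0 * Complex.I with hc
  apply memH_sub_const D.hU.continuousOn c hp (by linarith)
  set κ : ℝ := Real.cos (p / 2 * (2 * Real.pi)) with hκ
  have hκ0 : 0 < κ := by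
    apply Real.cos_pos_of_mem_Ioo
    constructor
    · have : 0 < p / 2 * (2 * Real.pi) := by positivity
      linarith
    · nlinarith
  set c' : ℂ := -(((-b : ℝ) : ℂ) + q1 * Complex.I) with hc'
  set δ : ℝ := 2 * ‖c - c'‖ with hδ
  have hδ0 : 0 ≤ δ := by positivity
  apply memH_of_re (G := fun z => Uf h g z - c)
    (E := fun z => Complex.exp (((p / 2 : ℝ) : ℂ) * (l z + m z)))
    (A := 2 ^ (p / 2) * κ⁻¹) (B := δ ^ p) (D.hU.continuousOn.sub continuousOn_const)
    (((hl.add hm).const_mul _).cexp) hp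
  intro z hz
  obtain ⟨h1, h2, h3⟩ := H z hz
  obtain ⟨h1', h2', h3'⟩ := H' z hz
  rw [exp_mul_re, Complex.exp_add, norm_mul, h1, h1']
  have e1 : Uf (fun z => -h z) (fun z => -g z) z - (((-b : ℝ) : ℂ) + q1 * Complex.I)
      = -(Uf h g z - c') := by
    rw [hc']
    simp only [Uf]
    ring
  rw [e1, norm_neg]
  set X := ‖Uf h g z - c‖ with hX
  set Y := ‖Uf h g z - c'‖ with hY
  have hX0 : 0 ≤ X := norm_nonneg _
  have hY0 : 0 ≤ Y := norm_nonneg _
  -- the angle
  have hang : |(l z + m z).im| ≤ 2 * Real.pi := by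
    rw [Complex.add_im]
    have h5 := abs_add_le (l z).im (m z).im
    rcases le_or_gt (fm h g z).re a with hle | hgt
    · have h6 : -b < (fm (fun z => -h z) (fun z => -g z) z).re := by
        have h7 : (fm (fun z => -h z) (fun z => -g z) z).re = -(fm h g z).re := by
          simp [fm]
          ring
        rw [h7]
        linarith [T.hab]
      have h8 := h3' h6
      linarith
    · have h8 := h3 hgt
      linarith
  have hcos : κ ≤ Real.cos (p / 2 * (l z + m z).im) := by
    rw [← Real.cos_abs (p / 2 * (l z + m z).im), abs_mul, abs_of_pos (by positivity : 0 < p / 2)]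
    apply Real.cos_le_cos_of_nonneg_of_le_pi (by positivity) (by nlinarith)
    exact mul_le_mul_of_nonneg_left hang (by positivity)
  have h4 : 1 ≤ κ⁻¹ * Real.cos (p / 2 * (l z + m z).im) := by
    rw [inv_mul_eq_div, le_div_iff₀ hκ0, one_mul]
    exact hcos
  have hXY : X ^ p ≤ 2 ^ (p / 2) * (X * Y) ^ (p / 2) + δ ^ p := by
    rcases le_or_gt X δ with hsm | hbig
    · have := Real.rpow_le_rpow hX0 hsm hp.le
      have h9 : 0 ≤ 2 ^ (p / 2) * (X * Y) ^ (p / 2) := by positivity
      linarith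
    · have h10 : X ≤ Y + ‖c - c'‖ := by
        have e2 : Uf h g z - c = (Uf h g z - c') - (c - c') := by ring
        rw [hX, e2]
        exact norm_sub_le _ _
      have h11 : X ≤ 2 * Y := by linarith
      have h12 : X ^ p = (X * X) ^ (p / 2) := by
        rw [Real.mul_rpow hX0 hX0, ← Real.rpow_add' hX0 (by positivity)]
        congr 1
        ring
      have h13 : (X * X) ^ (p / 2) ≤ (2 * (X * Y)) ^ (p / 2) := by
        apply Real.rpow_le_rpow (mul_nonneg hX0 hX0) _ (by positivity)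
        nlinarith [mul_le_mul_of_nonneg_left h11 hX0]
      rw [Real.mul_rpow (by norm_num : (0 : ℝ) ≤ 2) (mul_nonneg hX0 hY0)] at h13
      have h14 : 0 ≤ δ ^ p := by positivity
      rw [h12]
      linarith
  have h15 : 2 ^ (p / 2) * (X * Y) ^ (p / 2) ≤ 2 ^ (p / 2) * κ⁻¹ * ((X * Y) ^ (p / 2)
      * Real.cos (p / 2 * (l z + m z).im)) := by
    have e3 : 2 ^ (p / 2) * κ⁻¹ * ((X * Y) ^ (p / 2) * Real.cos (p / 2 * (l z + m z).im))
        = (2 ^ (p / 2) * (X * Y) ^ (p / 2)) * (κ⁻¹ * Real.cos (p / 2 * (l z + m z).im)) := by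
      ring
    rw [e3]
    exact le_mul_of_one_le_right (by positivity) h4
  linarith

end Pool.Agent.StripTouch
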