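import Pool.Agent.StripTouch.Dir

set_option autoImplicit false

namespace Pool.Agent.StripTouch

open Set Filter Topology Metric Pool.Agent.MP7da5c3

/-! Complements contained in one sector of opening less than `π`, or in two opposite ones. -/

variable {h g : ℂ → ℂ}

/-- the linear functional with slope `t` -/
def ph (t : ℝ) (w : ℂ) : ℝ := w.re + t * w.im

/-- a maximiser of the functional on `K` -/
def Mx (K : Set ℂ) (t : ℝ) (P : ℂ) : Prop := P ∈ K ∧ ∀ w ∈ K, ph t w ≤ ph t P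

/-- slopes with two different maximisers -/
def Bad (K : Set ℂ) : Set ℝ := {t | ∃ P Q : ℂ, Mx K t P ∧ Mx K t Q ∧ P.im < Q.im}

theorem bad_countable (K : Set ℂ) : (Bad K).Countable := by
  have h1 : ∀ t ∈ Bad K, ∃ r : ℚ, ∃ P Q : ℂ, Mx K t P ∧ Mx K t Q ∧ P.im < r ∧ (r : ℝ) < Q.im := by
    rintro t ⟨P, Q, hP, hQ, hPQ⟩
    obtain ⟨r, hr1, hr2⟩ := exists_rat_btwn hPQ
    exact ⟨r, P, Q, hP, hQ, hr1, hr2⟩
  choose! r hr using h1
  have hlt : ∀ s ∈ Bad K, ∀ t ∈ Bad K, s < t → r s < r t := by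
    intro s hs t ht hst
    obtain ⟨P, Q, hP, hQ, _, h2⟩ := hr s hs
    obtain ⟨P', Q', hP', hQ', h3, _⟩ := hr t ht
    have a1 := hQ.2 P' hP'.1
    have a2 := hP'.2 Q hQ.1
    unfold ph at a1 a2
    have h4 : (t - s) * (P'.im - Q.im) ≥ 0 := by nlinarith
    have h5 : P'.im - Q.im ≥ 0 := by
      by_contra hc
      push Not at hc
      have : (t - s) * (P'.im - Q.im) < 0 := mul_neg_of_pos_of_neg (by linarith) hc
      linarith
    have h6 : (r s : ℝ) < r t := by linarith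
    exact_mod_cast h6
  have hinj : InjOn r (Bad K) := by
    intro s hs t ht he
    by_contra hne
    rcases lt_or_gt_of_ne hne with h1 | h1
    · have := hlt s hs t ht h1
      rw [he] at this
      exact lt_irrefl _ this
    · have := hlt t ht s hs h1
      rw [he] at this
      exact lt_irrefl _ this
  exact countable_of_injective_of_countable_image hinj (to_countable _)

theorem Mx.unique {K : Set ℂ} {t : ℝ} (ht : t ∉ Bad K) {P w : ℂ} (hP : Mx K t P) (hw : w ∈ K)
    (hle : ph t P ≤ ph t w) : w = P := by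
  have hw' : Mx K t w := ⟨hw, fun v hv => (hP.2 v hv).trans hle⟩
  have h1 : w.im = P.im := by
    by_contra hne
    rcases lt_or_gt_of_ne hne with h1 | h1
    · exact ht ⟨w, P, hw', hP, h1⟩
    · exact ht ⟨P, w, hP, hw', h1⟩
  have h2 : ph t w = ph t P := le_antisymm (hP.2 w hw) hle
  unfold ph at h2
  rw [h1] at h2
  apply Complex.ext
  · linarith
  · exact h1

/-- the functional tends to `-∞` along a narrow sector -/
theorem ph_le {t ε : ℝ} {w w0 : ℂ} (hw : (w - w0).re ≤ -ε * ‖w - w0‖) :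
    ph t w ≤ ph t w0 - (ε - |t|) * ‖w - w0‖ := by
  have h1 : ph t w = ph t w0 + (w - w0).re + t * (w - w0).im := by
    unfold ph
    rw [Complex.sub_re, Complex.sub_im]
    ring
  have h2 : t * (w - w0).im ≤ |t| * ‖w - w0‖ := by
    calc t * (w - w0).im ≤ |t * (w - w0).im| := le_abs_self _
      _ = |t| * |(w - w0).im| := abs_mul _ _
      _ ≤ |t| * ‖w - w0‖ := mul_le_mul_of_nonneg_left (Complex.abs_im_le_norm _) (abs_nonneg _)
  rw [h1]
  linarith

theorem exists_mx {K : Set ℂ} (hK : IsClosed K) (hne : K.Nonempty) {t ε : ℝ} {w0 : ℂ}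
    (ht : |t| < ε) (hs : ∀ w ∈ K, (w - w0).re ≤ -ε * ‖w - w0‖) : ∃ P, Mx K t P := by
  obtain ⟨v, hv⟩ := hne
  have hc : Continuous (ph t) := by unfold ph; fun_prop
  set S : Set ℂ := K ∩ {w | ph t v ≤ ph t w} with hS
  have hSc : IsClosed S := hK.inter (isClosed_le continuous_const hc)
  have hSb : S ⊆ closedBall w0 ((ph t w0 - ph t v) / (ε - |t|)) := by
    rintro w ⟨hwK, hw⟩
    have h1 := ph_le (t := t) (hs w hwK)
    rw [mem_closedBall, dist_eq_norm, le_div_iff₀ (by linarith)]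
    have h2 : ph t v ≤ ph t w := hw
    linarith
  have hSk : IsCompact S := (isCompact_closedBall _ _).of_isClosed_subset hSc hSb
  obtain ⟨P, hP, hmax⟩ := hSk.exists_isMaxOn ⟨v, hv, le_refl (ph t v)⟩ hc.continuousOn
  refine ⟨P, hP.1, fun w hw => ?_⟩
  by_cases hwv : ph t v ≤ ph t w
  · exact hmax ⟨hw, hwv⟩
  · push Not at hwv
    exact hwv.le.trans hP.2

theorem nu_re (t : ℝ) (w : ℂ) : ((1 - t * Complex.I) * w).re = ph t w := by
  simp [ph]

theorem nu_ne (t : ℝ) : (1 - t * Complex.I : ℂ) ≠ 0 := by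
  intro h0
  have := congrArg Complex.re h0
  simp at this

/-- a unique point of the complement on a line gives an edge -/
theorem edge_of {Ω : Set ℂ} {ν : ℂ} (hν : ν ≠ 0) {P : ℂ} (hP : P ∉ Ω)
    (hu : ∀ w, w ∉ Ω → (ν * w).re = (ν * P).re → w = P) : Edge Ω ν (ν * P).re := by
  have key : ∀ s : ℝ, ν * (P + s * Complex.I / ν) = ν * P + s * Complex.I := by
    intro s
    field_simp
  have hre : ∀ s : ℝ, (ν * (P + s * Complex.I / ν)).re = (ν * P).re := by
    intro s
    rw [key]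
    simp
  have him : ∀ s : ℝ, (ν * (P + s * Complex.I / ν)).im = (ν * P).im + s := by
    intro s
    rw [key]
    simp
  have hm : ∀ s : ℝ, s ≠ 0 → P + s * Complex.I / ν ∈ Ω := by
    intro s hs
    by_contra hc
    have h1 := hu _ hc (hre s)
    have h2 := him s
    rw [h1] at h2
    apply hs
    linarith
  refine ⟨P, P + ((-1 : ℝ) : ℂ) * Complex.I / ν, P + ((1 : ℝ) : ℂ) * Complex.I / ν, hP,
    hm _ (by norm_num), hm _ (by norm_num), rfl, hre _, hre _, ?_, ?_⟩
  · rw [him]; linarith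
  · rw [him]; linarith

/-- a left sector gives an edge for every good slope -/
theorem edge_left {Ω K1 : Set ℂ} {t ε a b : ℝ} {w0 : ℂ} (hK1 : IsClosed K1)
    (hne : K1.Nonempty) (ht : |t| < ε) (htB : t ∉ Bad K1)
    (hs : ∀ w ∈ K1, (w - w0).re ≤ -ε * ‖w - w0‖) (hsub : K1 ⊆ Ωᶜ) (ha : ph t w0 ≤ a)
    (hrest : ∀ w, w ∉ Ω → w ∈ K1 ∨ b ≤ ph t w) (hab : a < b) :
    ∃ a', a' < b ∧ (∀ w, a' < ph t w → ph t w < b → w ∈ Ω) ∧
      Edge Ω (1 - t * Complex.I) a' := by
  obtain ⟨P, hP⟩ := exists_mx hK1 hne ht hs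
  have h1 : ph t P ≤ a := by
    have h2 := ph_le (t := t) (hs P hP.1)
    have h3 : 0 ≤ (ε - |t|) * ‖P - w0‖ := mul_nonneg (by linarith) (norm_nonneg _)
    linarith
  refine ⟨ph t P, by linarith, ?_, ?_⟩
  · intro w hw1 hw2
    by_contra hc
    rcases hrest w hc with h4 | h4
    · have := hP.2 w h4
      linarith
    · linarith
  · rw [← nu_re t P]
    apply edge_of (nu_ne t) (hsub hP.1)
    intro w hw he
    rw [nu_re, nu_re] at he
    rcases hrest w hw with h4 | h4
    · exact hP.unique htB h4 he.ge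
    · linarith

/-- the basic case: one sector opening to the left -/
theorem sector_left (D : Dat h g) {w0 : ℂ} {ε : ℝ} (hε : 0 < ε) (hne : (Om h g)ᶜ.Nonempty)
    (hs : ∀ w ∈ (Om h g)ᶜ, (w - w0).re ≤ -ε * ‖w - w0‖) {p : ℝ} (hp : 0 < p)
    (hp1 : p < 1 / 3) : MemH p h ∧ MemH p g := by
  have hK : IsClosed (Om h g)ᶜ := D.isOpen_Om.isClosed_compl
  have hdense := (bad_countable (Om h g)ᶜ).dense_compl ℝ
  have key : ∀ t : ℝ, t ∈ (Bad (Om h g)ᶜ)ᶜ → |t| < ε →
      MemH p (fun z => (1 - t * Complex.I) * h z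
        + (starRingEnd ℂ) (1 - t * Complex.I) * g z) := by
    intro t htB ht
    obtain ⟨a', h1, h2, h3⟩ := edge_left (Ω := Om h g) (K1 := (Om h g)ᶜ) (a := ph t w0)
      (b := ph t w0 + 1) hK hne ht htB hs Subset.rfl le_rfl (fun w hw => Or.inl hw) (by linarith)
    apply one_dir D (nu_ne t) (a := a') (b := ph t w0 + 1) ⟨h1, fun w hw1 hw2 => ?_⟩ h3 hp hp1
    rw [nu_re] at hw1 hw2
    exact h2 w hw1 hw2
  obtain ⟨t, htB, htI⟩ := hdense.exists_mem_open isOpen_Ioo (nonempty_Ioo.mpr (by linarith :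
    -ε < 0))
  obtain ⟨s, hsB, hsI⟩ := hdense.exists_mem_open isOpen_Ioo (nonempty_Ioo.mpr hε)
  have ht : |t| < ε := by
    rw [abs_lt]
    exact ⟨htI.1, by linarith [htI.2]⟩
  have hs' : |s| < ε := by
    rw [abs_lt]
    exact ⟨by linarith [hsI.1], hsI.2⟩
  apply two_dirs D (ν := 1 - t * Complex.I) (μ := 1 - s * Complex.I) _ hp (by linarith)
    (key t htB ht) (key s hsB hs')
  have h1 : ((1 - t * Complex.I : ℂ) * (starRingEnd ℂ) (1 - s * Complex.I)).im = s - t := by
    simp [Complex.mul_im]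
    ring
  rw [h1]
  have h2 := htI.2
  have h3 := hsI.1
  intro h0
  linarith

theorem Dat.neg (D : Dat h g) : Dat (fun z => -h z) (fun z => -g z) := by
  have := D.rot (ν := -1) (by norm_num)
  simpa using this

theorem mem_Om_neg (w : ℂ) : w ∈ Om (fun z => -h z) (fun z => -g z) ↔ -w ∈ Om h g := by
  have h1 := mem_Om_rot (h := h) (g := g) (ν := -1) (by norm_num) (-w)
  simpa using h1

theorem memH_neg {F : ℂ → ℂ} {p : ℝ} (hF : MemH p (fun z => -F z)) : MemH p F := by
  apply memH_congr _ hF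
  intro z
  rw [norm_neg]

/-- two opposite sectors in normal position, both met by the complement -/
theorem sector_two (D : Dat h g) {w1 w2 : ℂ} {ε : ℝ} (hε : 0 < ε)
    (h12 : w1.re < w2.re)
    (hs : ∀ w ∈ (Om h g)ᶜ, (w - w1).re ≤ -ε * ‖w - w1‖ ∨ ε * ‖w - w2‖ ≤ (w - w2).re)
    (ne1 : ∃ w ∈ (Om h g)ᶜ, (w - w1).re ≤ -ε * ‖w - w1‖)
    (ne2 : ∃ w ∈ (Om h g)ᶜ, ε * ‖w - w2‖ ≤ (w - w2).re)
    {p : ℝ} (hp : 0 < p) (hp1 : p < 1 / 2) : MemH p h ∧ MemH p g := by
  have hK : IsClosed (Om h g)ᶜ := D.isOpen_Om.isClosed_compl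
  set K1 : Set ℂ := (Om h g)ᶜ ∩ {w | (w - w1).re ≤ -ε * ‖w - w1‖} with hK1
  set K2 : Set ℂ := (Om h g)ᶜ ∩ {w | ε * ‖w - w2‖ ≤ (w - w2).re} with hK2
  have cK1 : IsClosed K1 := hK.inter (isClosed_le (by fun_prop) (by fun_prop))
  have cK2 : IsClosed K2 := hK.inter (isClosed_le (by fun_prop) (by fun_prop))
  have hsplit : ∀ w, w ∉ Om h g → w ∈ K1 ∨ w ∈ K2 := by
    intro w hw
    rcases hs w hw with h1 | h1
    · exact Or.inl ⟨hw, h1⟩
    · exact Or.inr ⟨hw, h1⟩
  replace ne1 : K1.Nonempty := by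
    obtain ⟨w, hw, hw'⟩ := ne1
    exact ⟨w, hw, hw'⟩
  set K3 : Set ℂ := {w | -w ∈ K2} with hK3
  have cK3 : IsClosed K3 := cK2.preimage continuous_neg
  have ne3 : K3.Nonempty := by
    obtain ⟨w, hw, hw'⟩ := ne2
    refine ⟨-w, ?_⟩
    have h1 : - -w ∈ K2 := by
      rw [neg_neg]
      exact ⟨hw, hw'⟩
    exact h1
  have hdense := ((bad_countable K1).union (bad_countable K3)).dense_compl ℝ
  -- a small slope
  obtain ⟨δ, hδ, hδε, hδs⟩ : ∃ δ > 0, δ ≤ ε ∧ ∀ t : ℝ, |t| < δ → ph t w1 < ph t w2 := by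
    have hc : ContinuousAt (fun t : ℝ => ph t w2 - ph t w1) 0 := by unfold ph; fun_prop
    have h0 : (0 : ℝ) < ph 0 w2 - ph 0 w1 := by
      unfold ph
      linarith
    have h1 : ∀ᶠ t : ℝ in 𝓝 0, 0 < ph t w2 - ph t w1 := hc.eventually (lt_mem_nhds h0)
    obtain ⟨δ, hδ, h2⟩ := Metric.eventually_nhds_iff_ball.mp h1
    refine ⟨min δ ε, lt_min hδ hε, min_le_right _ _, fun t ht => ?_⟩
    have h3 := h2 t (by
      rw [mem_ball, Real.dist_eq, sub_zero]
      exact lt_of_lt_of_le ht (min_le_left _ _))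
    linarith
  have main : ∀ t : ℝ, t ∈ (Bad K1 ∪ Bad K3)ᶜ → |t| < δ →
      MemH p (fun z => (1 - t * Complex.I) * h z
        + (starRingEnd ℂ) (1 - t * Complex.I) * g z) := by
    intro t htB htδ
    rw [mem_compl_iff, mem_union, not_or] at htB
    have ht : |t| < ε := lt_of_lt_of_le htδ hδε
    have h12t := hδs t htδ
    have hneg : ∀ v : ℂ, ph t (-v) = -ph t v := by
      intro v
      unfold ph
      rw [Complex.neg_re, Complex.neg_im]
      ring
    have hb2 : ∀ w ∈ K2, ph t w2 ≤ ph t w := by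
      intro w hw
      have h1 : (-w - -w2).re ≤ -ε * ‖-w - -w2‖ := by
        have h2 : ε * ‖w - w2‖ ≤ (w - w2).re := hw.2
        have e3 : -w - -w2 = -(w - w2) := by ring
        rw [e3, norm_neg, Complex.neg_re]
        linarith
      have h3 := ph_le (t := t) h1
      have h4 : 0 ≤ (ε - |t|) * ‖-w - -w2‖ := mul_nonneg (by linarith) (norm_nonneg _)
      rw [hneg, hneg] at h3
      linarith
    obtain ⟨a, ha1, ha2, ha3⟩ := edge_left (Ω := Om h g) (K1 := K1) (a := ph t w1)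
      (b := ph t w2) cK1 ne1 ht htB.1 (fun w hw => hw.2) (fun w hw => hw.1) le_rfl
      (fun w hw => (hsplit w hw).imp id (hb2 w)) h12t
    -- the other edge, seen from the negative
    have hK1a : ∀ w ∈ K1, ph t w ≤ a := by
      intro w hw
      by_contra hc
      push Not at hc
      by_cases hb : ph t w < ph t w2
      · exact hw.1 (ha2 w hc hb)
      · have h6 := ph_le (t := t) hw.2
        have h7 : 0 ≤ (ε - |t|) * ‖w - w1‖ := mul_nonneg (by linarith) (norm_nonneg _)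
        linarith
    set Ω' : Set ℂ := {w | -w ∈ Om h g} with hΩ'
    obtain ⟨b', hb1, hb2', hb3⟩ := edge_left (Ω := Ω') (K1 := K3) (a := ph t (-w2))
      (b := -a) (w0 := -w2) cK3 ne3 ht htB.2 (by
        intro w hw
        have h2 : ε * ‖-w - w2‖ ≤ (-w - w2).re := hw.2
        have e3 : w - -w2 = -(-w - w2) := by ring
        rw [e3, norm_neg, Complex.neg_re]
        linarith) (by
        intro w hw
        exact hw.1) le_rfl (by
        intro w hw
        rcases hsplit (-w) hw with h1 | h1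
        · right
          have h2 := hK1a _ h1
          rw [hneg] at h2
          linarith
        · left
          exact h1) (by
        rw [hneg]
        linarith)
    -- assemble
    have hab : a < -b' := by linarith
    have G : Gap (Om h g) (1 - t * Complex.I) a (-b') := by
      refine ⟨hab, fun w hw1 hw2 => ?_⟩
      rw [nu_re] at hw1 hw2
      have h1 : - -w ∈ Om h g := hb2' (-w) (by rw [hneg]; linarith) (by rw [hneg]; linarith)
      rw [neg_neg] at h1
      exact h1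
    have E' : Edge (Om h g) (-(1 - t * Complex.I)) (- -b') := by
      obtain ⟨P, v1, v2, hP, hv1, hv2, e1, e2, e3, l1, l2⟩ := hb3
      refine ⟨-P, -v1, -v2, hP, hv1, hv2, ?_, ?_, ?_, ?_, ?_⟩
      · rw [neg_mul_neg, neg_neg]; exact e1
      · rw [neg_mul_neg, neg_neg]; exact e2
      · rw [neg_mul_neg, neg_neg]; exact e3
      · rw [neg_mul_neg, neg_mul_neg]; exact l1
      · rw [neg_mul_neg, neg_mul_neg]; exact l2
    exact two_edges D (nu_ne t) G ha3 E' hp hp1
  obtain ⟨t, htB, htI⟩ := hdense.exists_mem_open isOpen_Ioo (nonempty_Ioo.mpr (by linarith :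
    -δ < 0))
  obtain ⟨s, hsB, hsI⟩ := hdense.exists_mem_open isOpen_Ioo (nonempty_Ioo.mpr hδ)
  have ht : |t| < δ := by
    rw [abs_lt]
    exact ⟨htI.1, by linarith [htI.2]⟩
  have hs' : |s| < δ := by
    rw [abs_lt]
    exact ⟨by linarith [hsI.1], hsI.2⟩
  apply two_dirs D (ν := 1 - t * Complex.I) (μ := 1 - s * Complex.I) _ hp (by linarith)
    (main t htB ht) (main s hsB hs')
  have h1 : ((1 - t * Complex.I : ℂ) * (starRingEnd ℂ) (1 - s * Complex.I)).im = s - t := by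
    simp [Complex.mul_im]
    ring
  rw [h1]
  have h2 := htI.2
  have h3 := hsI.1
  intro h0
  linarith

/-- two opposite sectors, in normal position -/
theorem sector_both (D : Dat h g) {w1 w2 : ℂ} {ε : ℝ} (hε : 0 < ε) (hne : (Om h g)ᶜ.Nonempty)
    (h12 : w1.re < w2.re)
    (hs : ∀ w ∈ (Om h g)ᶜ, (w - w1).re ≤ -ε * ‖w - w1‖ ∨ ε * ‖w - w2‖ ≤ (w - w2).re)
    {p : ℝ} (hp : 0 < p) (hp1 : p < 1 / 3) : MemH p h ∧ MemH p g := by
  by_cases ne1 : ∃ w ∈ (Om h g)ᶜ, (w - w1).re ≤ -ε * ‖w - w1‖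
  · by_cases ne2 : ∃ w ∈ (Om h g)ᶜ, ε * ‖w - w2‖ ≤ (w - w2).re
    · exact sector_two D hε h12 hs ne1 ne2 hp (by linarith)
    · apply sector_left D (w0 := w1) hε hne _ hp hp1
      intro w hw
      rcases hs w hw with h1 | h1
      · exact h1
      · exact absurd ⟨w, hw, h1⟩ ne2
  · have D' := D.neg
    have hne' : (Om (fun z => -h z) (fun z => -g z))ᶜ.Nonempty := by
      obtain ⟨w, hw⟩ := hne
      refine ⟨-w, ?_⟩
      rw [mem_compl_iff, mem_Om_neg, neg_neg]
      exact hw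
    have key := sector_left D' (w0 := -w2) hε hne' ?_ hp hp1
    · exact ⟨memH_neg key.1, memH_neg key.2⟩
    · intro w hw
      rw [mem_compl_iff, mem_Om_neg] at hw
      rcases hs _ hw with h1 | h1
      · exact absurd ⟨_, hw, h1⟩ ne1
      · have e3 : w - -w2 = -(-w - w2) := by ring
        rw [e3, norm_neg, Complex.neg_re]
        linarith

end Pool.Agent.StripTouch
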