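import Pool.Agent.MP7da5c3.Cor

set_option autoImplicit false

namespace Pool.Agent.StripTouch

open Set Filter Topology Metric

/-! The inverse of a univalent harmonic map and the monotonicity of the shear. -/

/-- the real derivative of `h + conj g` -/
noncomputable def lin (a b : ℂ) : ℂ →L[ℝ] ℂ :=
  ContinuousLinearMap.mul ℝ ℂ a
    + (Complex.conjCLE : ℂ →L[ℝ] ℂ).comp (ContinuousLinearMap.mul ℝ ℂ b)

theorem lin_apply (a b w : ℂ) : lin a b w = a * w + (starRingEnd ℂ) (b * w) := by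
  simp [lin]

theorem exists_equiv {a b : ℂ} (hab : ‖b‖ < ‖a‖) :
    ∃ e : ℂ ≃L[ℝ] ℂ, (e : ℂ →L[ℝ] ℂ) = lin a b := by
  have hinj : Function.Injective ((lin a b : ℂ →L[ℝ] ℂ) : ℂ →ₗ[ℝ] ℂ) := by
    rw [← LinearMap.ker_eq_bot, LinearMap.ker_eq_bot']
    intro w hw
    have h1 : a * w + (starRingEnd ℂ) (b * w) = 0 := by
      rw [← lin_apply]
      exact hw
    by_contra hw0
    have h2 : ‖a * w‖ = ‖b * w‖ := by
      have h3 : a * w = -(starRingEnd ℂ) (b * w) := by linear_combination h1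
      rw [h3, norm_neg, RCLike.norm_conj]
    rw [norm_mul, norm_mul] at h2
    have h3 : 0 < ‖w‖ := norm_pos_iff.mpr hw0
    have h4 := mul_right_cancel₀ h3.ne' h2
    rw [h4] at hab
    exact lt_irrefl _ hab
  refine ⟨(LinearEquiv.ofInjectiveEndo _ hinj).toContinuousLinearEquiv, ?_⟩
  ext w
  rfl

/-- the data of a sense preserving univalent harmonic map -/
structure Dat (h g : ℂ → ℂ) : Prop where
  hh : DifferentiableOn ℂ h (ball 0 1)
  hg : DifferentiableOn ℂ g (ball 0 1)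
  hinj : InjOn (fun z => h z + (starRingEnd ℂ) (g z)) (ball 0 1)
  hJ : ∀ z ∈ ball (0 : ℂ) 1, ‖deriv g z‖ < ‖deriv h z‖

variable {h g : ℂ → ℂ}

/-- the harmonic map -/
noncomputable def fm (h g : ℂ → ℂ) (z : ℂ) : ℂ := h z + (starRingEnd ℂ) (g z)

/-- the image domain -/
def Om (h g : ℂ → ℂ) : Set ℂ := fm h g '' ball 0 1

/-- the inverse map -/
noncomputable def iv (h g : ℂ → ℂ) : ℂ → ℂ := Function.invFunOn (fm h g) (ball 0 1)

theorem iv_mem {w : ℂ} (hw : w ∈ Om h g) : iv h g w ∈ ball (0 : ℂ) 1 :=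
  Function.invFunOn_mem hw

theorem fm_iv {w : ℂ} (hw : w ∈ Om h g) : fm h g (iv h g w) = w :=
  Function.invFunOn_eq hw

theorem Dat.iv_fm (D : Dat h g) {z : ℂ} (hz : z ∈ ball (0 : ℂ) 1) : iv h g (fm h g z) = z :=
  D.hinj (iv_mem ⟨z, hz, rfl⟩) hz (fm_iv ⟨z, hz, rfl⟩)

theorem Dat.strict (D : Dat h g) {z : ℂ} (hz : z ∈ ball (0 : ℂ) 1) :
    HasStrictFDerivAt (fm h g) (lin (deriv h z) (deriv g z)) z := by
  have h1 : HasStrictDerivAt h (deriv h z) z :=
    ((D.hh.analyticAt (isOpen_ball.mem_nhds hz)).hasStrictDerivAt)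
  have h2 : HasStrictDerivAt g (deriv g z) z :=
    ((D.hg.analyticAt (isOpen_ball.mem_nhds hz)).hasStrictDerivAt)
  have h3 := h1.hasStrictFDerivAt.restrictScalars ℝ
  have h4 := h2.hasStrictFDerivAt.restrictScalars ℝ
  have h5 := (Complex.conjCLE : ℂ →L[ℝ] ℂ).hasStrictFDerivAt (x := g z)
  have h6 := h3.add (h5.comp z h4)
  refine h6.congr_fderiv ?_
  ext w
  all_goals simp [lin_apply, mul_comm]

theorem Dat.map_nhds (D : Dat h g) {z : ℂ} (hz : z ∈ ball (0 : ℂ) 1) :
    Filter.map (fm h g) (𝓝 z) = 𝓝 (fm h g z) := by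
  obtain ⟨e, he⟩ := exists_equiv (D.hJ z hz)
  have h1 := D.strict hz
  rw [← he] at h1
  exact h1.map_nhds_eq_of_equiv

theorem Dat.Om_mem (D : Dat h g) {w : ℂ} (hw : w ∈ Om h g) : Om h g ∈ 𝓝 w := by
  obtain ⟨z, hz, rfl⟩ := hw
  rw [← D.map_nhds hz]
  exact image_mem_map (isOpen_ball.mem_nhds hz)

theorem Dat.isOpen_Om (D : Dat h g) : IsOpen (Om h g) :=
  isOpen_iff_mem_nhds.mpr fun _ hw => D.Om_mem hw

theorem Dat.iv_cont (D : Dat h g) {w : ℂ} (hw : w ∈ Om h g) : ContinuousAt (iv h g) w := by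
  intro N hN
  have hz := iv_mem hw
  have h1 : N ∩ ball 0 1 ∈ 𝓝 (iv h g w) := inter_mem hN (isOpen_ball.mem_nhds hz)
  have h2 : fm h g '' (N ∩ ball 0 1) ∈ 𝓝 w := by
    have h3 := D.map_nhds hz
    rw [fm_iv hw] at h3
    rw [← h3]
    exact image_mem_map h1
  rw [mem_map]
  filter_upwards [h2] with w' hw'
  obtain ⟨z', hz', rfl⟩ := hw'
  rw [mem_preimage, D.iv_fm hz'.2]
  exact hz'.1

/-- the shear: the analytic function with the same real part -/
def Uf (h g : ℂ → ℂ) (z : ℂ) : ℂ := h z + g z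

theorem re_Uf (z : ℂ) : (Uf h g z).re = (fm h g z).re := by
  simp [Uf, fm]

theorem Dat.hU (D : Dat h g) : DifferentiableOn ℂ (Uf h g) (ball 0 1) := D.hh.add D.hg

/-- the height of the shear as a function of the image point -/
noncomputable def qf (h g : ℂ → ℂ) (w : ℂ) : ℝ := (Uf h g (iv h g w)).im

theorem Dat.q_cont (D : Dat h g) {w : ℂ} (hw : w ∈ Om h g) : ContinuousAt (qf h g) w := by
  have h1 : ContinuousAt (Uf h g) (iv h g w) :=
    (D.hU.differentiableAt (isOpen_ball.mem_nhds (iv_mem hw))).continuousAt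
  exact Complex.continuous_im.continuousAt.comp (h1.comp (D.iv_cont hw))

theorem Dat.q_deriv (D : Dat h g) {x y : ℝ} (hw : (x : ℂ) + y * Complex.I ∈ Om h g) :
    ∃ d : ℝ, 0 < d ∧ HasDerivAt (fun t : ℝ => qf h g ((x : ℂ) + t * Complex.I)) d y := by
  set w : ℂ := (x : ℂ) + y * Complex.I with hwdef
  set z : ℂ := iv h g w with hzdef
  have hz : z ∈ ball (0 : ℂ) 1 := iv_mem hw
  obtain ⟨e, he⟩ := exists_equiv (D.hJ z hz)
  have h1 : HasFDerivAt (fm h g) (e : ℂ →L[ℝ] ℂ) z := by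
    rw [he]
    exact (D.strict hz).hasFDerivAt
  have h2 : ∀ᶠ w' in 𝓝 w, fm h g (iv h g w') = w' := by
    filter_upwards [D.Om_mem hw] with w' hw'
    exact fm_iv hw'
  have h3 : HasFDerivAt (iv h g) (e.symm : ℂ →L[ℝ] ℂ) w :=
    HasFDerivAt.of_local_left_inverse (D.iv_cont hw) h1 h2
  set ξ : ℂ := e.symm Complex.I with hξ
  have hl : HasDerivAt (fun t : ℝ => (x : ℂ) + t * Complex.I) Complex.I y := by
    have := ((hasDerivAt_id y).ofReal_comp).mul_const Complex.I
    simpa using this.const_add (x : ℂ)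
  have h4 : HasDerivAt (fun t : ℝ => iv h g ((x : ℂ) + t * Complex.I)) ξ y := by
    exact h3.comp_hasDerivAt y hl
  have h5 : HasDerivAt (Uf h g) (deriv h z + deriv g z) z :=
    ((D.hh.differentiableAt (isOpen_ball.mem_nhds hz)).hasDerivAt).add
      ((D.hg.differentiableAt (isOpen_ball.mem_nhds hz)).hasDerivAt)
  have h6 : HasDerivAt (fun t : ℝ => Uf h g (iv h g ((x : ℂ) + t * Complex.I)))
      ((deriv h z + deriv g z) * ξ) y := by
    have h5' : HasDerivAt (Uf h g) (deriv h z + deriv g z)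
        ((fun t : ℝ => iv h g ((x : ℂ) + t * Complex.I)) y) := h5
    exact HasDerivAt.comp (h₂ := Uf h g) y h5' h4
  refine ⟨((deriv h z + deriv g z) * ξ).im, ?_, ?_⟩
  · have h7 : deriv h z * ξ + (starRingEnd ℂ) (deriv g z * ξ) = Complex.I := by
      rw [← lin_apply, ← he]
      simp [hξ]
    have hξ0 : ξ ≠ 0 := by
      intro h0
      rw [h0] at h7
      simp at h7
      exact Complex.I_ne_zero h7.symm
    have h8 : ‖deriv g z * ξ‖ < ‖deriv h z * ξ‖ := by
      rw [norm_mul, norm_mul]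
      exact mul_lt_mul_of_pos_right (D.hJ z hz) (norm_pos_iff.mpr hξ0)
    set A := deriv h z * ξ with hA
    set B := deriv g z * ξ with hB
    have h9 : (deriv h z + deriv g z) * ξ = A + B := by rw [hA, hB]; ring
    have hre := congrArg Complex.re h7
    have him := congrArg Complex.im h7
    simp only [Complex.add_re, Complex.add_im, Complex.conj_re, Complex.conj_im, Complex.I_re,
      Complex.I_im] at hre him
    have h10 : ‖B‖ ^ 2 < ‖A‖ ^ 2 := by
      have := norm_nonneg B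
      nlinarith
    rw [← Complex.normSq_eq_norm_sq, ← Complex.normSq_eq_norm_sq, Complex.normSq_apply,
      Complex.normSq_apply] at h10
    rw [h9, Complex.add_im]
    have e1 : A.re = -B.re := by linarith
    have e2 : A.im = 1 + B.im := by linarith
    rw [e1, e2] at h10
    rw [e2]
    nlinarith
  · exact Complex.imCLM.hasFDerivAt.comp_hasDerivAt y h6

/-- the height increases strictly along vertical segments of the image domain -/
theorem Dat.q_mono (D : Dat h g) {x y1 y2 : ℝ} (hy : y1 < y2)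
    (hs : ∀ y ∈ Icc y1 y2, (x : ℂ) + y * Complex.I ∈ Om h g) :
    qf h g ((x : ℂ) + y1 * Complex.I) < qf h g ((x : ℂ) + y2 * Complex.I) := by
  have h1 : StrictMonoOn (fun t : ℝ => qf h g ((x : ℂ) + t * Complex.I)) (Icc y1 y2) := by
    apply strictMonoOn_of_deriv_pos (convex_Icc y1 y2)
    · intro y hyy
      obtain ⟨d, _, hd⟩ := D.q_deriv (hs y hyy)
      exact hd.continuousAt.continuousWithinAt
    · intro y hyy
      rw [interior_Icc] at hyy
      obtain ⟨d, hd0, hd⟩ := D.q_deriv (hs y (Ioo_subset_Icc_self hyy))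
      rw [hd.deriv]
      exact hd0
  exact h1 (left_mem_Icc.mpr hy.le) (right_mem_Icc.mpr hy.le) hy

end Pool.Agent.StripTouch
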