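import Pool.Agent.StripTouch.Shear
import Pool.Agent.Sturm82.PkgHarnack

set_option autoImplicit false

namespace Pool.Agent.StripTouch

open Set Filter Topology Metric Pool.Agent.MP7da5c3

/-! The winding argument. -/

/-- the strip `a < Re w < b` lies in `Ω`, and the line `Re w = a` carries a point of the
complement with points of `Ω` below and above it -/
structure TouchL (Ω : Set ℂ) (a b y0 : ℝ) : Prop where
  hab : a < b
  hs : ∀ w : ℂ, a < w.re → w.re < b → w ∈ Ω
  hP : (a : ℂ) + y0 * Complex.I ∉ Ω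
  lo : ∃ y < y0, (a : ℂ) + y * Complex.I ∈ Ω
  up : ∃ y > y0, (a : ℂ) + y * Complex.I ∈ Ω

variable {h g : ℂ → ℂ}

theorem line_re (x y : ℝ) : ((x : ℂ) + y * Complex.I).re = x := by simp

theorem line_im (x y : ℝ) : ((x : ℂ) + y * Complex.I).im = y := by simp

/-- the heights below the complementary point are at most the heights above it -/
theorem TouchL.le {a b y0 : ℝ} (D : Dat h g) (T : TouchL (Om h g) a b y0) {y1 y2 : ℝ}
    (h12 : y1 < y2) (h1 : (a : ℂ) + y1 * Complex.I ∈ Om h g)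
    (h2 : (a : ℂ) + y2 * Complex.I ∈ Om h g) :
    qf h g ((a : ℂ) + y1 * Complex.I) ≤ qf h g ((a : ℂ) + y2 * Complex.I) := by
  have hc : ∀ y : ℝ, (a : ℂ) + y * Complex.I ∈ Om h g →
      Tendsto (fun t : ℝ => qf h g ((t : ℂ) + y * Complex.I)) (𝓝[>] a)
        (𝓝 (qf h g ((a : ℂ) + y * Complex.I))) := by
    intro y hy
    have h3 : ContinuousAt (fun t : ℝ => (t : ℂ) + y * Complex.I) a := by fun_prop
    have h4 : ContinuousAt (fun t : ℝ => qf h g ((t : ℂ) + y * Complex.I)) a :=
      ContinuousAt.comp (g := qf h g) (D.q_cont hy) h3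
    exact h4.tendsto.mono_left nhdsWithin_le_nhds
  apply le_of_tendsto_of_tendsto (hc y1 h1) (hc y2 h2)
  filter_upwards [Ioo_mem_nhdsGT T.hab] with t ht
  apply (D.q_mono h12 _).le
  intro y _
  apply T.hs
  · rw [line_re]; exact ht.1
  · rw [line_re]; exact ht.2

/-- there is an omitted height on the line `Re w = a` -/
theorem TouchL.exists_gap {a b y0 : ℝ} (D : Dat h g) (T : TouchL (Om h g) a b y0) :
    ∃ q0 : ℝ, ∀ y : ℝ, (a : ℂ) + y * Complex.I ∈ Om h g →
      qf h g ((a : ℂ) + y * Complex.I) ≠ q0 := by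
  obtain ⟨yl, hyl, hl⟩ := T.lo
  obtain ⟨yu, hyu, hu⟩ := T.up
  set S : Set ℝ := {s | ∃ y < y0, (a : ℂ) + y * Complex.I ∈ Om h g ∧
    s = qf h g ((a : ℂ) + y * Complex.I)} with hS
  have hne : S.Nonempty := ⟨_, yl, hyl, hl, rfl⟩
  have hub : ∀ y > y0, (a : ℂ) + y * Complex.I ∈ Om h g →
      qf h g ((a : ℂ) + y * Complex.I) ∈ upperBounds S := by
    rintro y hy hm s ⟨y', hy', hm', rfl⟩
    exact T.le D (lt_trans hy' hy) hm' hm
  have hbdd : BddAbove S := ⟨_, hub yu hyu hu⟩
  have hnb : ∀ y : ℝ, (a : ℂ) + y * Complex.I ∈ Om h g →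
      ∃ ε > 0, ∀ t ∈ Icc (y - ε) (y + ε), (a : ℂ) + t * Complex.I ∈ Om h g := by
    intro y hy
    have h3 : ContinuousAt (fun t : ℝ => (a : ℂ) + t * Complex.I) y := by fun_prop
    have h4 : ∀ᶠ t : ℝ in 𝓝 y, (a : ℂ) + t * Complex.I ∈ Om h g := h3 (D.Om_mem hy)
    obtain ⟨ε, hε, he⟩ := Metric.eventually_nhds_iff_ball.mp h4
    refine ⟨ε / 2, by positivity, fun t ht => he t ?_⟩
    rw [mem_ball, Real.dist_eq, abs_lt]
    constructor
    · linarith [ht.1]
    · linarith [ht.2]
  refine ⟨sSup S, fun y hy heq => ?_⟩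
  have hyne : y ≠ y0 := by
    intro h0
    rw [h0] at hy
    exact T.hP hy
  obtain ⟨ε, hε, he⟩ := hnb y hy
  rcases lt_or_gt_of_ne hyne with hlt | hgt
  · -- a lower point: move up a little
    set y' := min (y + ε) ((y + y0) / 2) with hy'
    have h5 : y < y' := lt_min (by linarith) (by linarith)
    have h6 : y' < y0 := lt_of_le_of_lt (min_le_right _ _) (by linarith)
    have h7 : y' ≤ y + ε := min_le_left _ _
    have h8 : qf h g ((a : ℂ) + y * Complex.I) < qf h g ((a : ℂ) + y' * Complex.I) :=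
      D.q_mono h5 fun t ht => he t ⟨by linarith [ht.1], by linarith [ht.2]⟩
    have h9 : qf h g ((a : ℂ) + y' * Complex.I) ≤ sSup S :=
      le_csSup hbdd ⟨y', h6, he y' ⟨by linarith, h7⟩, rfl⟩
    rw [heq] at h8
    exact absurd h8 (not_lt.mpr h9)
  · -- an upper point: move down a little
    set y' := max (y - ε) ((y + y0) / 2) with hy'
    have h5 : y' < y := max_lt (by linarith) (by linarith)
    have h6 : y0 < y' := lt_of_lt_of_le (by linarith) (le_max_right _ _)
    have h7 : y - ε ≤ y' := le_max_left _ _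
    have h8 : qf h g ((a : ℂ) + y' * Complex.I) < qf h g ((a : ℂ) + y * Complex.I) :=
      D.q_mono h5 fun t ht => he t ⟨by linarith [ht.1], by linarith [ht.2]⟩
    have h9 : sSup S ≤ qf h g ((a : ℂ) + y' * Complex.I) :=
      csSup_le hne (hub y' h6 (he y' ⟨h7, by linarith⟩))
    rw [heq] at h8
    exact absurd h8 (not_lt.mpr h9)

/-- the part of the disc over the strip is connected -/
theorem strip_preconnected {a b : ℝ} (D : Dat h g)
    (hs : ∀ w : ℂ, a < w.re → w.re < b → w ∈ Om h g) :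
    IsPreconnected (iv h g '' {w : ℂ | a < w.re ∧ w.re < b}) := by
  have h1 : IsPreconnected {w : ℂ | a < w.re ∧ w.re < b} := by
    apply Convex.isPreconnected
    have e1 : {w : ℂ | a < w.re ∧ w.re < b} = {w : ℂ | a < w.re} ∩ {w : ℂ | w.re < b} := rfl
    rw [e1]
    exact (convex_halfSpace_re_gt a).inter (convex_halfSpace_re_lt b)
  apply h1.image
  intro w hw
  exact (D.iv_cont (hs w hw.1 hw.2)).continuousWithinAt

/-- the logarithm of the shear centred at an omitted point -/
theorem TouchL.exists_log {a b y0 : ℝ} (D : Dat h g) (T : TouchL (Om h g) a b y0) :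
    ∃ (q0 : ℝ) (l : ℂ → ℂ), DifferentiableOn ℂ l (ball 0 1) ∧ ∀ z ∈ ball (0 : ℂ) 1,
      Complex.exp (l z) = Uf h g z - ((a : ℂ) + q0 * Complex.I) ∧
      |(l z).im| < 3 * Real.pi / 2 ∧ (a < (fm h g z).re → |(l z).im| < Real.pi / 2) := by
  obtain ⟨q0, hq0⟩ := T.exists_gap D
  have hpi := Real.pi_pos
  -- the shear omits the point
  have hne : ∀ z ∈ ball (0 : ℂ) 1, Uf h g z - ((a : ℂ) + q0 * Complex.I) ≠ 0 := by
    intro z hz h0
    have h1 : Uf h g z = (a : ℂ) + q0 * Complex.I := by linear_combination h0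
    have h2 : (fm h g z).re = a := by rw [← re_Uf, h1, line_re]
    have h3 : fm h g z = (a : ℂ) + ((fm h g z).im : ℂ) * Complex.I := by
      apply Complex.ext
      · rw [line_re, h2]
      · rw [line_im]
    have h4 : (a : ℂ) + ((fm h g z).im : ℂ) * Complex.I ∈ Om h g := by
      rw [← h3]
      exact ⟨z, hz, rfl⟩
    apply hq0 _ h4
    rw [← h3, qf, D.iv_fm hz, h1, line_im]
  obtain ⟨l0, hl0, hexp0⟩ := Pool.Agent.Sturm82.Har.exists_log_ball one_pos
    (D.hU.sub_const ((a : ℂ) + q0 * Complex.I)) hne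
  -- the base point
  set w0 : ℂ := (((a + b) / 2 : ℝ) : ℂ) with hw0
  have hw0s : a < w0.re ∧ w0.re < b := by
    rw [hw0, Complex.ofReal_re]
    constructor <;> linarith [T.hab]
  have hw0m : w0 ∈ Om h g := T.hs w0 hw0s.1 hw0s.2
  set z0 : ℂ := iv h g w0 with hz0
  have hz0m : z0 ∈ ball (0 : ℂ) 1 := iv_mem hw0m
  -- real parts
  have hre0 : ∀ z ∈ ball (0 : ℂ) 1, Real.exp (l0 z).re * Real.cos (l0 z).im
      = (fm h g z).re - a := by
    intro z hz
    have h1 := congrArg Complex.re (hexp0 z hz)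
    rw [Complex.exp_re, Complex.sub_re, re_Uf, line_re] at h1
    exact h1
  -- normalisation
  have hcos0 : 0 < Real.cos (l0 z0).im := by
    have h1 := hre0 z0 hz0m
    rw [hz0, fm_iv hw0m] at h1
    have h2 : 0 < Real.exp (l0 z0).re * Real.cos (l0 z0).im := by
      rw [hz0, h1]
      linarith [hw0s.1]
    exact (mul_pos_iff_of_pos_left (Real.exp_pos _)).mp h2
  obtain ⟨n, hn⟩ : ∃ n : ℤ, |(l0 z0).im - n * (2 * Real.pi)| < Real.pi / 2 := by
    set s := (l0 z0).im with hs
    set m : ℤ := round (s / (2 * Real.pi)) with hm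
    refine ⟨m, ?_⟩
    have h1 := abs_sub_round (s / (2 * Real.pi))
    rw [← hm] at h1
    have h2 : s - m * (2 * Real.pi) = (s / (2 * Real.pi) - m) * (2 * Real.pi) := by
      field_simp
    have h3 : |s - m * (2 * Real.pi)| ≤ Real.pi := by
      rw [h2, abs_mul, abs_of_pos (by positivity : (0 : ℝ) < 2 * Real.pi)]
      nlinarith
    have h4 : Real.cos (s - m * (2 * Real.pi)) = Real.cos s := Real.cos_sub_int_mul_two_pi s m
    by_contra hcon
    rw [not_lt] at hcon
    have h5 : Real.cos |s - m * (2 * Real.pi)| ≤ 0 :=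
      Real.cos_nonpos_of_pi_div_two_le_of_le hcon (by linarith)
    rw [Real.cos_abs, h4] at h5
    linarith
  set l : ℂ → ℂ := fun z => l0 z - (n : ℂ) * (2 * Real.pi * Complex.I) with hl
  have hld : DifferentiableOn ℂ l (ball 0 1) := hl0.sub_const _
  have hlexp : ∀ z ∈ ball (0 : ℂ) 1,
      Complex.exp (l z) = Uf h g z - ((a : ℂ) + q0 * Complex.I) := by
    intro z hz
    rw [hl]
    simp only
    rw [Complex.exp_sub, Complex.exp_int_mul_two_pi_mul_I, div_one, hexp0 z hz]
  have hlz0 : |(l z0).im| < Real.pi / 2 := by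
    have e1 : (l z0).im = (l0 z0).im - n * (2 * Real.pi) := by
      rw [hl]
      simp
    rw [e1]
    exact hn
  have hre : ∀ z ∈ ball (0 : ℂ) 1, Real.exp (l z).re * Real.cos (l z).im
      = (fm h g z).re - a := by
    intro z hz
    have h1 := congrArg Complex.re (hlexp z hz)
    rw [Complex.exp_re, Complex.sub_re (Uf h g z), re_Uf, line_re] at h1
    exact h1
  have hlc : ∀ z ∈ ball (0 : ℂ) 1, ContinuousAt (fun z => (l z).im) z := by
    intro z hz
    exact Complex.continuous_im.continuousAt.comp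
      (hld.differentiableAt (isOpen_ball.mem_nhds hz)).continuousAt
  -- values over the strip
  have hstrip : ∀ w : ℂ, a < w.re → w.re < b → |(l (iv h g w)).im| < Real.pi / 2 := by
    by_contra hcon
    push Not at hcon
    obtain ⟨w1, hw1, hw1', hbig⟩ := hcon
    have hpre := strip_preconnected D T.hs
    have hmz : ∀ z ∈ iv h g '' {w : ℂ | a < w.re ∧ w.re < b}, z ∈ ball (0 : ℂ) 1 := by
      rintro z ⟨w, hw, rfl⟩
      exact iv_mem (T.hs w hw.1 hw.2)
    have hcont : ContinuousOn (fun z => |(l z).im|)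
        (iv h g '' {w : ℂ | a < w.re ∧ w.re < b}) := by
      intro z hz
      exact (hlc z (hmz z hz)).abs.continuousWithinAt
    have hiv := hpre.intermediate_value (mem_image_of_mem _ hw0s)
      (mem_image_of_mem (iv h g) (⟨hw1, hw1'⟩ : w1 ∈ {w : ℂ | a < w.re ∧ w.re < b})) hcont
    obtain ⟨z, hz, hzv⟩ := hiv ⟨hlz0.le, hbig⟩
    simp only at hzv
    have h1 := hre z (hmz z hz)
    have h2 : Real.cos (l z).im = 0 := by
      rw [← Real.cos_abs, hzv, Real.cos_pi_div_two]
    rw [h2, mul_zero] at h1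
    obtain ⟨w, hw, rfl⟩ := hz
    rw [fm_iv (T.hs w hw.1 hw.2)] at h1
    linarith [hw.1]
  -- values over the line
  have hline : ∀ z ∈ ball (0 : ℂ) 1, (fm h g z).re = a → |(l z).im| ≤ Real.pi / 2 := by
    intro z hz hza
    set w := fm h g z with hw
    have hwm : w ∈ Om h g := ⟨z, hz, rfl⟩
    have h1 : Tendsto (fun t : ℝ => |(l (iv h g (w + t))).im|) (𝓝[>] 0)
        (𝓝 |(l z).im|) := by
      have h2 : ContinuousAt (fun t : ℝ => w + (t : ℂ)) 0 := by fun_prop
      have h3 : ContinuousAt (iv h g) (w + ((0 : ℝ) : ℂ)) := by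
        rw [Complex.ofReal_zero, add_zero]
        exact D.iv_cont hwm
      have h4 : ContinuousAt (fun t : ℝ => iv h g (w + (t : ℂ))) 0 :=
        ContinuousAt.comp (g := iv h g) h3 h2
      have h5 : iv h g (w + ((0 : ℝ) : ℂ)) = z := by
        rw [Complex.ofReal_zero, add_zero, hw, D.iv_fm hz]
      have h6 : ContinuousAt (fun z => |(l z).im|) (iv h g (w + ((0 : ℝ) : ℂ))) := by
        rw [h5]
        exact (hlc z hz).abs
      have h7 : ContinuousAt (fun t : ℝ => |(l (iv h g (w + (t : ℂ)))).im|) 0 :=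
        ContinuousAt.comp (g := fun z => |(l z).im|) h6 h4
      have h8 := h7.tendsto
      rw [h5] at h8
      exact h8.mono_left nhdsWithin_le_nhds
    apply le_of_tendsto h1
    have h9 : (0 : ℝ) < b - a := by linarith [T.hab]
    filter_upwards [Ioo_mem_nhdsGT h9] with t ht
    apply (hstrip _ _ _).le
    · rw [Complex.add_re, Complex.ofReal_re, hza]
      linarith [ht.1]
    · rw [Complex.add_re, Complex.ofReal_re, hza]
      linarith [ht.2]
  -- all values
  have hall : ∀ z ∈ ball (0 : ℂ) 1, |(l z).im| < 3 * Real.pi / 2 := by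
    intro z1 hz1
    by_contra hcon
    rw [not_lt] at hcon
    have hpre : IsPreconnected (ball (0 : ℂ) 1) := (convex_ball 0 1).isPreconnected
    have hcont : ContinuousOn (fun z => |(l z).im|) (ball (0 : ℂ) 1) := fun z hz =>
      (hlc z hz).abs.continuousWithinAt
    obtain ⟨z, hz, hzv⟩ := hpre.intermediate_value hz0m hz1 hcont
      (⟨by linarith, hcon⟩ : (3 * Real.pi / 2) ∈ Icc |(l z0).im| |(l z1).im|)
    simp only at hzv
    have h1 := hre z hz
    have h2 : Real.cos (l z).im = 0 := by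
      rw [← Real.cos_abs, hzv]
      have e1 : 3 * Real.pi / 2 = Real.pi / 2 + Real.pi := by ring
      rw [e1, Real.cos_add_pi, Real.cos_pi_div_two, neg_zero]
    rw [h2, mul_zero] at h1
    have h3 := hline z hz (by linarith)
    rw [hzv] at h3
    linarith
  refine ⟨q0, l, hld, fun z hz => ⟨hlexp z hz, hall z hz, fun hza => ?_⟩⟩
  by_contra hcon
  rw [not_lt] at hcon
  have h1 := hre z hz
  have h2 : Real.cos (l z).im ≤ 0 := by
    rw [← Real.cos_abs]
    exact Real.cos_nonpos_of_pi_div_two_le_of_le hcon (by linarith [hall z hz])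
  have h3 : 0 < (fm h g z).re - a := by linarith
  rw [← h1] at h3
  have h4 : 0 < Real.cos (l z).im := (mul_pos_iff_of_pos_left (Real.exp_pos _)).mp h3
  linarith

end Pool.Agent.StripTouch
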